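import Pool.Agent.K1H86.TH.Gen
import Pool.Agent.K1H86.TH.SysOf
import Pool.Agent.K1H86.TH.Grp
import Pool.Agent.K1H86.TH.Elt
import Pool.Agent.K1H86.TH.SUB
import Pool.Agent.K1H86.TH.NDA
import Pool.Agent.K1H86.TH.Seq
import Pool.Agent.K1H86.TH.Upper
import Pool.Agent.K1H86.TH.Nup
import Pool.Agent.K1H86.TH.CI
import Pool.Agent.K1H86.TH.Nlo
import Pool.Agent.R796.HT.BS
import Pool.Agent.K1H86.TH.Brief

/-!
# MP_94b6b1_an, Q2: Thompson's groups do not have the heat property

None of Thompson's groups `F`, `T`, `V` has the heat property. More generally no group `G` has it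
which contains a self-similar system of commuting elements (`Sys G`).
-/

set_option autoImplicit false

namespace Pool.Agent.Results.MP_94b6b1_an.ThompsonGroups

open Pool.Agent.K1H86.TH Pool.Agent.K1H86.TH.Brief

/-- Thompson's group `V`: the bijections of the Cantor space `{0,1}^ℕ` which are locally (hence,
by compactness, on the cylinders of a finite partition) replacements of prefixes -/
def ThompsonV : Subgroup (Equiv.Perm C) where
  carrier := {σ | PR σ}
  mul_mem' := fun ha hb => prmul _ _ ha hb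
  one_mem' := fun _ => ⟨0, 0, fun _ _ => ⟨fun _ hj => absurd hj (Nat.not_lt_zero _), fun _ => rfl⟩⟩
  inv_mem' := fun ha => prinv _ ha

/-- Thompson's group `T`: the elements of `V` which preserve the cyclic order -/
def ThompsonT : Subgroup (Equiv.Perm C) where
  carrier := {σ | σ ∈ ThompsonV ∧ ∀ x y z, Cyc (σ x) (σ y) (σ z) ↔ Cyc x y z}
  mul_mem' := by
    intro a b ha hb
    refine ⟨ThompsonV.mul_mem ha.1 hb.1, fun x y z => ?_⟩
    show Cyc (a (b x)) (a (b y)) (a (b z)) ↔ _
    rw [ha.2, hb.2]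
  one_mem' := ⟨ThompsonV.one_mem, fun _ _ _ => Iff.rfl⟩
  inv_mem' := by
    intro a ha
    refine ⟨ThompsonV.inv_mem ha.1, fun x y z => ?_⟩
    rw [← ha.2]
    simp

/-- Thompson's group `F`: the elements of `V` which preserve the lexicographic order -/
def ThompsonF : Subgroup (Equiv.Perm C) where
  carrier := {σ | σ ∈ ThompsonV ∧ ∀ x y, Lx (σ x) (σ y) ↔ Lx x y}
  mul_mem' := by
    intro a b ha hb
    refine ⟨ThompsonV.mul_mem ha.1 hb.1, fun x y => ?_⟩
    show Lx (a (b x)) (a (b y)) ↔ _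
    rw [ha.2, hb.2]
  one_mem' := ⟨ThompsonV.one_mem, fun _ _ => Iff.rfl⟩
  inv_mem' := by
    intro a ha
    refine ⟨ThompsonV.inv_mem ha.1, fun x y => ?_⟩
    rw [← ha.2]
    simp

theorem F_le_T : ThompsonF ≤ ThompsonT := by
  intro σ hσ
  refine ⟨hσ.1, fun x y z => ?_⟩
  unfold Cyc
  rw [hσ.2, hσ.2, hσ.2]

theorem T_le_V : ThompsonT ≤ ThompsonV := fun _ h => h.1

theorem exists_elements : ∃ (c : Bool → Equiv.Perm C) (f : Equiv.Perm C),
    (∀ ε, c ε ∈ ThompsonF) ∧ f ∈ ThompsonF ∧ (∀ ε x, c ε (io x) = io (cons ε x)) ∧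
    (∀ x, (∀ y, x ≠ io y) → f x = x) ∧ ∃ x, f (f x) ≠ x := by
  obtain ⟨h, hp, ho, h0, h1, h2⟩ := elt
  obtain ⟨r, rp, ro, r1, r2⟩ := sub true h hp ho
  obtain ⟨l, lp, lo, l1, l2⟩ := sub false h hp ho
  obtain ⟨f, fp, fo, f1, f2⟩ := sub true l lp lo
  have hF : h ∈ ThompsonF := ⟨hp, ho⟩
  have rF : r ∈ ThompsonF := ⟨rp, ro⟩
  refine ⟨fun ε => if ε = true then r * h⁻¹ else r, f, ?_, ⟨fp, fo⟩, ?_, ?_, ?_⟩
  · intro ε
    cases ε
    · exact rF
    · exact ThompsonF.mul_mem rF (ThompsonF.inv_mem hF)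
  · intro ε x
    cases ε
    · show r (io x) = io (cons false x)
      unfold io
      rw [r1, h0]
    · show (r * h⁻¹) (io x) = io (cons true x)
      have e1 : h⁻¹ (io x) = cons true (cons true (cons false x)) := by
        rw [Equiv.Perm.inv_eq_iff_eq, h2]
        rfl
      rw [Equiv.Perm.mul_apply, e1, r1, h1]
      rfl
  · intro x hx
    obtain ⟨b, y, rfl⟩ := cons_surj x
    cases b
    · exact f2 y
    · rw [f1]
      obtain ⟨b', z, rfl⟩ := cons_surj y
      cases b'
      · exact absurd rfl (hx z)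
      · have : l (cons true z) = cons true z := l2 z
        rw [this]
  · refine ⟨io (cons true (cons false (fun _ => false))), ?_⟩
    unfold io
    rw [f1, l1, h1, f1, l1, h0]
    intro hcon
    have e1 := cons_inj _ _ _ (cons_inj _ _ _ hcon)
    have e2 := cons_head _ _ _ _ e1
    exact absurd e2 (by decide)

theorem general (G : Type) [Group G] (D : Sys G) : ¬ Heat G := fun h =>
  gen Pool.Agent.R796.HT.BS (upper nda seq com) nup com inj nlo G D (heat_imp h)

theorem notHeat_of (Γ : Subgroup (Equiv.Perm C)) (hΓ : ThompsonF ≤ Γ) : ¬ Heat Γ := by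
  obtain ⟨c, f, mc, mf, hc, hf, hf2⟩ := exists_elements
  obtain ⟨D⟩ := sysOf Γ c f (fun ε => hΓ (mc ε)) (hΓ mf) hc hf hf2
  exact general Γ D

/-- Thompson's groups `F ≤ T ≤ V` do not have the heat property; more generally no group of
bijections of the Cantor space containing `F`, and no group with a self-similar system of
commuting elements, has it. -/
theorem result : ThompsonF ≤ ThompsonT ∧ ThompsonT ≤ ThompsonV ∧
    ¬ Heat ThompsonF ∧ ¬ Heat ThompsonT ∧ ¬ Heat ThompsonV ∧
    (∀ Γ : Subgroup (Equiv.Perm C), ThompsonF ≤ Γ → ¬ Heat Γ) ∧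
    ∀ (G : Type) (_ : Group G), Nonempty (Sys G) → ¬ Heat G :=
  ⟨F_le_T, T_le_V, notHeat_of _ le_rfl, notHeat_of _ F_le_T, notHeat_of _ (F_le_T.trans T_le_V),
    notHeat_of, fun G _ h => general G h.some⟩

end Pool.Agent.Results.MP_94b6b1_an.ThompsonGroups
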